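import Mathlib
import Pool.Agent.H22.ZooWorm

set_option autoImplicit false
open MeasureTheory ProbabilityTheory

namespace Pool.Agent.Results.MP_e1341d_pr.Counter

/-- The nearest-neighbour lattice on `ℤ²`. -/
def lattice : SimpleGraph (ℤ × ℤ) where
  Adj a b := |a.1 - b.1| + |a.2 - b.2| = 1
  symm := ⟨fun a b h => by rw [abs_sub_comm b.1, abs_sub_comm b.2]; exact h⟩
  loopless := ⟨fun a h => by simp at h⟩

/-- The four unit steps. -/
def dir : Fin 4 → ℤ × ℤ := ![(1, 0), (-1, 0), (0, 1), (0, -1)]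

/-- Position at time `t` of the walk from the origin with steps `s`. -/
def pos (s : ℕ → Fin 4) (t : ℕ) : ℤ × ℤ := ∑ i ∈ Finset.range t, dir (s i)

/-- The trace `{X(0), …, X(L)}` of a worm with length `L = a.1` and steps `a.2`. -/
def trace (a : ℕ × (ℕ → Fin 4)) : Set (ℤ × ℤ) := {z | ∃ t ≤ a.1, z = pos a.2 t}

/-- At every site, independently, a Poisson(`v`) number and an i.i.d. sequence of worms (length of
law `m`, independent i.i.d. uniform steps). -/
noncomputable def law (m : PMF ℕ) (v : NNReal) : Measure (ℤ × ℤ → ℕ × (ℕ → ℕ × (ℕ → Fin 4))) :=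
  Measure.infinitePi fun _ => (poissonMeasure v).prod
    (Measure.infinitePi fun _ : ℕ => m.toMeasure.prod
      (Measure.infinitePi fun _ : ℕ => (PMF.uniformOfFintype (Fin 4)).toMeasure))

/-- The union over sites `x` of the traces of the first `N_x` worms started at `x`. -/
def occ (ω : ℤ × ℤ → ℕ × (ℕ → ℕ × (ℕ → Fin 4))) : Set (ℤ × ℤ) :=
  {y | ∃ x, ∃ i < (ω x).1, y - x ∈ trace ((ω x).2 i)}

/-- The critical intensity. -/
noncomputable def vc (m : PMF ℕ) : ENNReal :=
  ⨅ (v : NNReal) (_ : 0 < v)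
    (_ : 0 < law m v {ω | ∃ c : (lattice.induce (occ ω)).ConnectedComponent, c.supp.Infinite}),
    (v : ENNReal)

/-- A length distribution on the positive integers with infinite mean and `v_c > 0`. -/
theorem result : ∃ m : PMF ℕ, m 0 = 0 ∧ ∑' l : ℕ, (l : ENNReal) * m l = ⊤ ∧ 0 < vc m := by
  obtain ⟨m, h0, h1, v0, h2, h3⟩ := Pool.Agent.H22.Zoo.worms
  refine ⟨m, h0, h1, lt_of_lt_of_le (b := (v0 : ENNReal)) (by exact_mod_cast h2)
    (le_iInf fun v => le_iInf₂ fun _ h => ?_)⟩
  by_contra hv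
  exact h.ne' (h3 v (by exact_mod_cast (not_le.1 hv).le))

end Pool.Agent.Results.MP_e1341d_pr.Counter
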